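import Mathlib
import Pool.Agent.K9h10.SM.Main

set_option autoImplicit false
set_option linter.unusedSectionVars false

/-!
# Multiples by random numbers are normal: general form
-/

namespace Pool.Agent.K9h10.AL

open MeasureTheory ProbabilityTheory Finset Filter Topology
open Pool.Agent.H534R3.UDist (ee norm_ee UD Weyl ud_of_weyl)
open Pool.Agent.K9h10.SM

variable {Ω : Type*} [MeasurableSpace Ω] {P : Measure Ω} [IsProbabilityMeasure P]

/-- the exponential sums along the fourth powers -/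
lemma weyl_ae_of {b : ℕ} (hb : 2 ≤ b) (α : ℝ) (y0 : ℝ) (h : ℤ)
    {X : ℕ → Ω → ℤ} (hX : ∀ i, Measurable (X i)) (hI : iIndepFun X P) (K : ℝ)
    (hK : ∀ i ω, |(X i ω : ℝ)| ≤ K)
    (hsmall : ∀ ε : ℝ, 0 < ε → ∀ᶠ k : ℕ in atTop, ∀ n, k ^ 2 ≤ n → n < k ^ 4 →
      ‖∫ ω, Vz (cf b (h * α)) n k (fun k => X k ω) ∂P‖ ≤ ε) :
    ∀ᵐ ω ∂P, Tendsto (fun N : ℕ => ‖∑ n ∈ range N,
      ee (h * ((b : ℝ) ^ n * (y0 + α * ∑' i, (X i ω : ℝ) / (b : ℝ) ^ i)))‖ / N) atTop (𝓝 0) := by
  have hb2 : (2 : ℝ) ≤ b := by exact_mod_cast hb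
  have hb0 : (0 : ℝ) < b := by linarith
  set y : ℕ → ℝ := fun n => h * ((b : ℝ) ^ n * y0) with hy
  set c := cf b (h * α) with hc
  set e : ℕ → ℕ → ℂ := fun k n => ∫ ω, Vz c n k (fun i => X i ω) ∂P with he
  have he1 : ∀ k n, ‖e k n‖ ≤ 1 := by
    intro k n
    have := norm_integral_le_of_norm_le_const (μ := P) (f := fun ω => Vz c n k (fun k => X k ω))
      (C := 1) (Filter.Eventually.of_forall fun ω => (norm_Vz _ _ _ _).le)
    simpa [he] using this
  set Z : ℕ → Ω → ℂ := fun k ω =>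
    (∑ n ∈ range (k ^ 4), Dz y c n k (e k n) (fun i => X i ω)) / ((k : ℂ) ^ 4) with hZ
  have hZm : ∀ k, Measurable (Z k) := fun k =>
    (Finset.measurable_sum _ fun n _ => meas_Dz hX y c n k (e k n)).div_const _
  have hZ2 : ∀ k, ∫ ω, ‖Z k ω‖ ^ 2 ∂P ≤ 16 * (1 / (k : ℝ) ^ 3) := by
    intro k
    have h1 := second_moment hX hI y c k (e k) (fun n => rfl) (k ^ 4)
    have e1 : ∀ ω, ‖Z k ω‖ ^ 2 =
        ‖∑ n ∈ range (k ^ 4), Dz y c n k (e k n) (fun i => X i ω)‖ ^ 2 * (1 / (k : ℝ) ^ 8) := by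
      intro ω
      rw [hZ]
      simp only [norm_div, norm_pow, Complex.norm_natCast]
      rw [div_pow]
      ring
    simp_rw [e1]
    rw [integral_mul_const]
    refine (mul_le_mul_of_nonneg_right h1 (by positivity)).trans (le_of_eq ?_)
    rcases Nat.eq_zero_or_pos k with rfl | hk
    · simp
    · have : (k : ℝ) ≠ 0 := by exact_mod_cast hk.ne'
      push_cast
      field_simp
  have hsum : Summable fun k : ℕ => 16 * (1 / (k : ℝ) ^ 3) :=
    (Real.summable_one_div_nat_pow.2 (by norm_num)).mul_left 16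
  have hZb : ∀ k ω, ‖Z k ω‖ ≤ 2 := by
    intro k ω
    rw [hZ]
    simp only [norm_div, norm_pow, Complex.norm_natCast]
    rcases Nat.eq_zero_or_pos k with rfl | hk
    · simp
    · have hk0 : (0 : ℝ) < (k : ℝ) ^ 4 := by positivity
      rw [div_le_iff₀ hk0]
      calc ‖∑ n ∈ range (k ^ 4), Dz y c n k (e k n) (fun i => X i ω)‖
          ≤ ∑ n ∈ range (k ^ 4), ‖Dz y c n k (e k n) (fun i => X i ω)‖ := norm_sum_le _ _
        _ ≤ ∑ _n ∈ range (k ^ 4), (2 : ℝ) :=
          Finset.sum_le_sum fun n _ => norm_Dz y c n k (e k n) (he1 k n) _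
        _ = 2 * (k : ℝ) ^ 4 := by
          rw [Finset.sum_const, Finset.card_range, nsmul_eq_mul]
          push_cast
          ring
  have hae := ae_tendsto hZm (fun _ => 2) hZb _ hsum hZ2
  filter_upwards [hae] with ω hω
  refine interp _ (fun n => (norm_ee _).le) ?_
  set x := ∑' i, (X i ω : ℝ) / (b : ℝ) ^ i with hx
  have htail := (tail hb (fun i => X i ω) K (fun i => hK i ω)).2
  have hK0 : 0 ≤ K := (abs_nonneg _).trans (hK 0 ω)
  set C : ℝ := 4 * Real.pi * |(h : ℝ) * α| * K with hC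
  have hC0 : 0 ≤ C := by positivity
  -- the pointwise bound
  have hpt : ∀ k n, ‖ee (h * ((b : ℝ) ^ n * (y0 + α * x))) -
      (Dz y c n k (e k n) (fun i => X i ω) + e k n * Fz y c n k (fun i => X i ω))‖ ≤
      C / (b : ℝ) ^ k := by
    intro k n
    have e1 : Dz y c n k (e k n) (fun i => X i ω) + e k n * Fz y c n k (fun i => X i ω) =
        ee (y n + ∑ j ∈ range (n + k), c n j * X j ω) := by
      rw [← FV, Dz]
      ring
    rw [e1]
    refine (norm_ee_sub _ _).trans ?_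
    have e2 : (h : ℝ) * ((b : ℝ) ^ n * (y0 + α * x)) - (y n + ∑ j ∈ range (n + k), c n j * X j ω) =
        (h * α) * (b : ℝ) ^ n * (x - ∑ j ∈ range (n + k), (X j ω : ℝ) / (b : ℝ) ^ j) := by
      have e3 : ∑ j ∈ range (n + k), c n j * X j ω =
          (h * α) * (b : ℝ) ^ n * ∑ j ∈ range (n + k), (X j ω : ℝ) / (b : ℝ) ^ j := by
        rw [Finset.mul_sum]
        refine Finset.sum_congr rfl fun j _ => ?_
        rw [hc, cf]
        ring
      rw [e3, hy]
      ring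
    rw [e2, abs_mul, abs_mul, abs_of_pos (pow_pos hb0 n)]
    have h1 := htail (n + k)
    calc 2 * Real.pi * (|(h : ℝ) * α| * (b : ℝ) ^ n *
          |x - ∑ j ∈ range (n + k), (X j ω : ℝ) / (b : ℝ) ^ j|)
        ≤ 2 * Real.pi * (|(h : ℝ) * α| * (b : ℝ) ^ n * (2 * K / (b : ℝ) ^ (n + k))) := by
          refine mul_le_mul_of_nonneg_left ?_ (by positivity)
          exact mul_le_mul_of_nonneg_left h1 (by positivity)
      _ = C / (b : ℝ) ^ k := by
          rw [hC, pow_add]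
          field_simp
          ring
  rw [tendsto_order]
  refine ⟨fun c' hc' => Eventually.of_forall fun k => lt_of_lt_of_le hc' (by positivity),
    fun δ hδ => ?_⟩
  have hev1 := hsmall (δ / 5) (by positivity)
  have hev2 : ∀ᶠ k : ℕ in atTop, ‖Z k ω‖ < δ / 5 := by
    have := (tendsto_zero_iff_norm_tendsto_zero.1 hω)
    exact this.eventually (gt_mem_nhds (by positivity))
  have hev3 : ∀ᶠ k : ℕ in atTop, C / (b : ℝ) ^ k < δ / 5 := by
    have h1 : Tendsto (fun k : ℕ => C / (b : ℝ) ^ k) atTop (𝓝 0) :=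
      tendsto_const_nhds.div_atTop (tendsto_pow_atTop_atTop_of_one_lt (by linarith))
    exact h1.eventually (gt_mem_nhds (by positivity))
  have hev4 : ∀ᶠ k : ℕ in atTop, 1 / (k : ℝ) < δ / 5 :=
    tendsto_one_div_atTop_nhds_zero_nat.eventually (gt_mem_nhds (by positivity))
  filter_upwards [hev1, hev2, hev3, hev4, eventually_gt_atTop 0] with k h1 h2 h3 h4 hk
  have hkR : (1 : ℝ) ≤ k := by exact_mod_cast hk
  have hk0 : (0 : ℝ) < (k : ℝ) ^ 4 := by positivity
  rw [div_lt_iff₀ hk0]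
  have hsE : ∑ n ∈ range (k ^ 4), ‖e k n‖ ≤ (k : ℝ) ^ 2 + (k : ℝ) ^ 4 * (δ / 5) := by
    have h5 : ∀ n ∈ range (k ^ 4), ‖e k n‖ ≤ (if n < k ^ 2 then (1 : ℝ) else 0) + δ / 5 := by
      intro n hn
      split_ifs with h6
      · have := he1 k n
        linarith
      · rw [zero_add]
        exact h1 n (by omega) (Finset.mem_range.1 hn)
    refine (Finset.sum_le_sum h5).trans ?_
    rw [Finset.sum_add_distrib, Finset.sum_const, Finset.card_range, nsmul_eq_mul]
    push_cast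
    have h6 : ∑ n ∈ range (k ^ 4), (if n < k ^ 2 then (1 : ℝ) else 0) ≤ (k : ℝ) ^ 2 := by
      rw [← Finset.sum_filter, Finset.sum_const, nsmul_eq_mul, mul_one]
      have : ((range (k ^ 4)).filter fun n => n < k ^ 2).card ≤ k ^ 2 := by
        calc ((range (k ^ 4)).filter fun n => n < k ^ 2).card ≤ (range (k ^ 2)).card := by
              refine Finset.card_le_card fun n hn => ?_
              rw [Finset.mem_filter] at hn
              exact Finset.mem_range.2 hn.2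
          _ = k ^ 2 := Finset.card_range _
      exact_mod_cast this
    linarith
  have hZk : ‖∑ n ∈ range (k ^ 4), Dz y c n k (e k n) (fun i => X i ω)‖ = ‖Z k ω‖ * (k : ℝ) ^ 4 := by
    rw [hZ]
    simp only [norm_div, norm_pow, Complex.norm_natCast]
    field_simp
  set u : ℕ → ℂ := fun n => ee (h * ((b : ℝ) ^ n * (y0 + α * x))) with hu
  have hdec : ∑ n ∈ range (k ^ 4), u n =
      ∑ n ∈ range (k ^ 4), (u n - (Dz y c n k (e k n) (fun i => X i ω) +
        e k n * Fz y c n k (fun i => X i ω))) +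
      ∑ n ∈ range (k ^ 4), Dz y c n k (e k n) (fun i => X i ω) +
      ∑ n ∈ range (k ^ 4), e k n * Fz y c n k (fun i => X i ω) := by
    rw [← Finset.sum_add_distrib, ← Finset.sum_add_distrib]
    refine Finset.sum_congr rfl fun n _ => ?_
    ring
  have hb1 : ‖∑ n ∈ range (k ^ 4), (u n - (Dz y c n k (e k n) (fun i => X i ω) +
        e k n * Fz y c n k (fun i => X i ω)))‖ ≤ (k : ℝ) ^ 4 * (C / (b : ℝ) ^ k) := by
    refine (norm_sum_le _ _).trans ?_
    refine (Finset.sum_le_sum fun n _ => hpt k n).trans ?_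
    rw [Finset.sum_const, Finset.card_range, nsmul_eq_mul]
    push_cast
    exact le_rfl
  have hb2' : ‖∑ n ∈ range (k ^ 4), e k n * Fz y c n k (fun i => X i ω)‖ ≤
      (k : ℝ) ^ 2 + (k : ℝ) ^ 4 * (δ / 5) := by
    refine (norm_sum_le _ _).trans ?_
    refine le_trans (Finset.sum_le_sum fun n _ => ?_) hsE
    rw [norm_mul, norm_Fz, mul_one]
  have hk2 : (k : ℝ) ^ 2 ≤ (k : ℝ) ^ 4 * (δ / 5) := by
    have h5 : (k : ℝ) ^ 2 ≤ (k : ℝ) ^ 3 := pow_le_pow_right₀ hkR (by norm_num)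
    have h6 : (k : ℝ) ^ 3 = (k : ℝ) ^ 4 * (1 / k) := by
      have : (k : ℝ) ≠ 0 := by positivity
      field_simp
    calc (k : ℝ) ^ 2 ≤ (k : ℝ) ^ 4 * (1 / k) := by rw [← h6]; exact h5
      _ ≤ (k : ℝ) ^ 4 * (δ / 5) := mul_le_mul_of_nonneg_left h4.le hk0.le
  calc ‖∑ n ∈ range (k ^ 4), u n‖
      ≤ ‖∑ n ∈ range (k ^ 4), (u n - (Dz y c n k (e k n) (fun i => X i ω) +
          e k n * Fz y c n k (fun i => X i ω)))‖ +
        ‖∑ n ∈ range (k ^ 4), Dz y c n k (e k n) (fun i => X i ω)‖ +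
        ‖∑ n ∈ range (k ^ 4), e k n * Fz y c n k (fun i => X i ω)‖ := by
        rw [hdec]
        exact norm_add₃_le
    _ ≤ (k : ℝ) ^ 4 * (C / (b : ℝ) ^ k) + ‖Z k ω‖ * (k : ℝ) ^ 4 +
        ((k : ℝ) ^ 4 * (δ / 5) + (k : ℝ) ^ 4 * (δ / 5)) := by
        rw [hZk]
        linarith
    _ < δ * (k : ℝ) ^ 4 := by
        have h5 : (k : ℝ) ^ 4 * (C / (b : ℝ) ^ k) < (k : ℝ) ^ 4 * (δ / 5) :=
          mul_lt_mul_of_pos_left h3 hk0
        have h6 : ‖Z k ω‖ * (k : ℝ) ^ 4 < δ / 5 * (k : ℝ) ^ 4 := mul_lt_mul_of_pos_right h2 hk0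
        nlinarith


/-- the expectation of `Vz` is small, general form -/
lemma e_small_gen {b : ℕ} (hb : 2 ≤ b) (β : ℝ) {X : ℕ → Ω → ℤ} (hX : ∀ i, Measurable (X i))
    (hI : iIndepFun X P) (a a' : ℕ → ℤ) (haa : ∀ i, a i ≠ a' i) (T : ℕ) (hT : 0 < T)
    (haT : ∀ i, (a' i - a i) ∣ (T : ℤ)) (v : ℕ → ℝ) (hv0 : ∀ i, 0 ≤ v i)
    (hv : ∀ i, v i ≤ P.real {ω | X i ω = a i} * P.real {ω | X i ω = a' i})
    (ρ : ℝ) (hρ : 0 ≤ ρ) (n G : ℕ) (hn : G ≤ n) (S : Finset ℕ) (hS : S ⊆ range G)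
    (hgood : ∀ j ∈ S, ρ ≤ nd ((b : ℝ) ^ j * (T * β)))
    (w : ℝ) (hw : ∀ i, n - G < i → i ≤ n → w ≤ v i) :
    ‖∫ ω, Vz (cf b β) n G (fun k => X k ω) ∂P‖ ≤
      Real.exp (-(8 * (ρ / T) ^ 2 * (S.card * w))) := by
  have hb0 : (0 : ℝ) < b := by exact_mod_cast (by omega : 0 < b)
  have hT0 : (0 : ℝ) < T := by exact_mod_cast hT
  unfold Vz
  rw [int_prod hX hI _ (fun k z => ee (cf b β n k * z)), norm_prod]
  have hlt : ∀ j ∈ S, j < G := fun j hj => mem_range.1 (hS hj)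
  set S' : Finset ℕ := S.image fun j => n - j with hS'
  have hinj : Set.InjOn (fun j => n - j) (S : Finset ℕ) := by
    intro j hj l hl hjl
    simp only at hjl
    have h1 := hlt j (by simpa using hj)
    have h2 := hlt l (by simpa using hl)
    omega
  have hsub : S' ⊆ Ico (n - G) (n + G) := by
    intro i hi
    rw [hS', Finset.mem_image] at hi
    obtain ⟨j, hj, rfl⟩ := hi
    have h1 := hlt j hj
    rw [Finset.mem_Ico]
    omega
  calc ∏ k ∈ Ico (n - G) (n + G), ‖∫ ω, ee (cf b β n k * X k ω) ∂P‖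
      ≤ ∏ k ∈ S', ‖∫ ω, ee (cf b β n k * X k ω) ∂P‖ := by
        exact Finset.prod_le_prod_of_subset_of_le_one hsub (fun i _ => norm_nonneg _)
          fun i _ _ => char_le_one _
    _ = ∏ j ∈ S, ‖∫ ω, ee (cf b β n (n - j) * X (n - j) ω) ∂P‖ := by
        rw [hS', Finset.prod_image hinj]
    _ ≤ ∏ _j ∈ S, Real.exp (-(8 * (ρ / T) ^ 2 * w)) := by
        refine Finset.prod_le_prod (fun i _ => norm_nonneg _) fun j hj => ?_
        have h1 := hlt j hj
        have h0 : ρ / T ≤ nd (cf b β n (n - j) * (a' (n - j) - a (n - j))) := by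
          rw [cf_sub hb β (by omega)]
          obtain ⟨s, hs⟩ := haT (n - j)
          set d : ℤ := a' (n - j) - a (n - j) with hd
          have hdR : ((a' (n - j) : ℝ) - a (n - j)) = d := by
            rw [hd]
            push_cast
            ring
          rw [hdR]
          have hd0 : d ≠ 0 := by
            have := haa (n - j)
            omega
          have hTR : (T : ℝ) = d * s := by exact_mod_cast hs
          have hs1 : |(s : ℝ)| ≤ T := by
            have h5 : |(T : ℝ)| = |(d : ℝ)| * |(s : ℝ)| := by rw [hTR, abs_mul]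
            rw [abs_of_pos hT0] at h5
            have h6 : (1 : ℝ) ≤ |(d : ℝ)| := by exact_mod_cast Int.one_le_abs hd0
            nlinarith [abs_nonneg (s : ℝ)]
          have h4 := nd_int_mul s ((b : ℝ) ^ j * β * d)
          have e4 : (s : ℝ) * ((b : ℝ) ^ j * β * d) = (b : ℝ) ^ j * (T * β) := by
            rw [hTR]
            ring
          rw [e4] at h4
          have h7 := (hgood j hj).trans h4
          have h8 : ρ ≤ T * nd ((b : ℝ) ^ j * β * d) :=
            h7.trans (mul_le_mul_of_nonneg_right hs1 (nd_nonneg _))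
          rw [div_le_iff₀ hT0]
          linarith
        have h2 := char_le' (P := P) (hX (n - j)) (haa (n - j)) (cf b β n (n - j))
          (v (n - j)) (ρ / T) (by positivity) h0 (hv _) (hv0 _)
        refine h2.trans (Real.exp_le_exp.2 (neg_le_neg ?_))
        have h3 := hw (n - j) (by omega) (by omega)
        exact mul_le_mul_of_nonneg_left h3 (by positivity)
    _ = Real.exp (-(8 * (ρ / T) ^ 2 * (S.card * w))) := by
        rw [Finset.prod_const, ← Real.exp_nat_mul]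
        congr 1
        ring

/-- **Normality, general form.** -/
theorem normal_gen {b : ℕ} (hb : 2 ≤ b) (α : ℝ) (g : ℕ → ℝ) (hg0 : ∀ᶠ i in atTop, 0 < g i)
    (hg4 : ∃ C : ℝ, 0 < C ∧ ∀ᶠ k : ℕ in atTop, ∀ i : ℕ, k ≤ i → i ≤ k ^ 4 → g i ≤ C * g k)
    (hgood : ∀ T : ℤ, T ≠ 0 → ∃ c ρ : ℝ, 0 < c ∧ 0 < ρ ∧ ∀ᶠ k : ℕ in atTop,
      c * g k ≤ (((range k).filter fun j => ρ ≤ nd ((b : ℝ) ^ j * (T * α))).card : ℝ))
    (y0 : ℝ) {X : ℕ → Ω → ℤ} (hX : ∀ i, Measurable (X i)) (hI : iIndepFun X P) (K : ℕ)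
    (hK : ∀ i ω, |X i ω| ≤ (K : ℤ))
    (hv : ∀ a : ℕ → ℤ, Tendsto (fun i : ℕ => P.real {ω | X i ω ≠ a i} * g i) atTop atTop) :
    ∀ᵐ ω ∂P, NormalTo b (y0 + α * ∑' i, (X i ω : ℝ) / (b : ℝ) ^ i) := by
  have hK' : ∀ i ω, |X i ω| ≤ ((K + 1 : ℕ) : ℤ) := by
    intro i ω
    have := hK i ω
    push_cast
    omega
  have key : ∀ i, ∃ a a' : ℤ, a ≠ a' ∧ |a| ≤ ((K + 1 : ℕ) : ℤ) ∧ |a'| ≤ ((K + 1 : ℕ) : ℤ) ∧
      P.real {ω | X i ω ≠ a} ≤ (2 * ((K + 1 : ℕ) : ℝ) + 1) ^ 2 *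
        (P.real {ω | X i ω = a} * P.real {ω | X i ω = a'}) :=
    fun i => exists_pair (by omega) (hK' i)
  choose a a' haa ha1 ha2 ha3 using key
  have hcast : ∀ i ω, |(X i ω : ℝ)| ≤ ((K : ℕ) : ℝ) := by
    intro i ω
    have := hK i ω
    exact_mod_cast this
  set T : ℕ := (2 * (K + 1)).factorial with hT
  have hT0 : 0 < T := Nat.factorial_pos _
  have hTR : (0 : ℝ) < T := by exact_mod_cast hT0
  have haT : ∀ i, (a' i - a i) ∣ (T : ℤ) := by
    intro i
    have h1 := haa i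
    have h2 := abs_le.1 (ha1 i)
    have h3 := abs_le.1 (ha2 i)
    rw [← Int.natAbs_dvd]
    have h4 : (a' i - a i).natAbs ≤ 2 * (K + 1) := by omega
    have h5 : 0 < (a' i - a i).natAbs := by omega
    exact_mod_cast Nat.dvd_factorial h5 h4
  set v : ℕ → ℝ := fun i => P.real {ω | X i ω = a i} * P.real {ω | X i ω = a' i} with hvdef
  have hv0 : ∀ i, 0 ≤ v i := fun i => mul_nonneg measureReal_nonneg measureReal_nonneg
  have hvt : Tendsto (fun i : ℕ => v i * g i) atTop atTop := by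
    have h1 := (hv a).const_mul_atTop
      (show (0 : ℝ) < 1 / (2 * ((K + 1 : ℕ) : ℝ) + 1) ^ 2 by positivity)
    refine tendsto_atTop_mono' atTop ?_ h1
    filter_upwards [hg0] with i hi
    rw [← mul_assoc]
    refine mul_le_mul_of_nonneg_right ?_ hi.le
    rw [one_div, inv_mul_le_iff₀ (by positivity)]
    exact ha3 i
  have hsm : ∀ h : ℤ, h ≠ 0 → ∀ ε : ℝ, 0 < ε → ∀ᶠ k : ℕ in atTop, ∀ n, k ^ 2 ≤ n → n < k ^ 4 →
      ‖∫ ω, Vz (cf b (h * α)) n k (fun k => X k ω) ∂P‖ ≤ ε := by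
    intro h hh ε hε
    obtain ⟨C, hC, hC4⟩ := hg4
    obtain ⟨c, ρ, hc, hρ, hgd⟩ := hgood (T * h) (mul_ne_zero (by omega) hh)
    set D : ℝ := 8 * (ρ / T) ^ 2 * (c / C) with hD
    have hD0 : 0 < D := by positivity
    obtain ⟨M, hM0, hM⟩ : ∃ M : ℝ, 0 ≤ M ∧ Real.exp (-(D * M)) ≤ ε := by
      refine ⟨max 0 (-Real.log ε / D), le_max_left _ _, ?_⟩
      rw [← Real.le_log_iff_exp_le hε, neg_le]
      calc -Real.log ε = D * (-Real.log ε / D) := by field_simp
        _ ≤ _ := mul_le_mul_of_nonneg_left (le_max_right _ _) hD0.le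
    obtain ⟨i0, hi0⟩ := eventually_atTop.1 ((hvt.eventually_ge_atTop M).and hg0)
    filter_upwards [eventually_ge_atTop (i0 + 3), hgd, hC4, hg0] with k hk1 hk2 hk3 hk4 n hn1 hn2
    have hkn : k + i0 ≤ n := by
      have h1 : k + i0 ≤ k * k := by nlinarith
      have h2 : k * k = k ^ 2 := by ring
      omega
    have hkn2 : k + k ≤ n := by
      have h1 : k + k ≤ k * k := by nlinarith
      have h2 : k * k = k ^ 2 := by ring
      omega
    set w : ℝ := M / (C * g k) with hw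
    have h1 := e_small_gen hb (h * α) hX hI a a' haa T hT0 haT v hv0 (fun i => le_rfl) ρ hρ.le n k
      (by omega) _ (filter_subset (fun j => ρ ≤ nd ((b : ℝ) ^ j * (((T * h : ℤ) : ℝ) * α))) _)
      (fun j hj => by
        rw [mem_filter] at hj
        have e : ((T * h : ℤ) : ℝ) * α = T * (h * α) := by push_cast; ring
        rw [e] at hj
        exact hj.2) w (by
        intro i hi1 hi2
        have hi3 : i0 ≤ i := by omega
        obtain ⟨h2, h3⟩ := hi0 i hi3
        have h4 := hk3 i (by omega) (by omega)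
        rw [hw, div_le_iff₀ (by positivity)]
        refine h2.trans ?_
        exact mul_le_mul_of_nonneg_left h4 (hv0 i))
    refine h1.trans (le_trans (Real.exp_le_exp.2 (neg_le_neg ?_)) hM)
    rw [hD, mul_assoc]
    refine mul_le_mul_of_nonneg_left ?_ (by positivity)
    calc c / C * M = c * g k * w := by
          rw [hw]
          field_simp
      _ ≤ _ := mul_le_mul_of_nonneg_right hk2 (by positivity)
  have h1 : ∀ᵐ ω ∂P, ∀ h : ℕ, 1 ≤ h → Tendsto (fun N : ℕ => ‖∑ n ∈ range N,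
      ee (h * ((b : ℝ) ^ n * (y0 + α * ∑' i, (X i ω : ℝ) / (b : ℝ) ^ i)))‖ / N) atTop (𝓝 0) := by
    rw [ae_all_iff]
    intro h
    by_cases hh : 1 ≤ h
    · have := weyl_ae_of hb α y0 (h : ℤ) hX hI K hcast (hsm h (by omega))
      filter_upwards [this] with ω hω _
      exact_mod_cast hω
    · exact Eventually.of_forall fun ω h2 => absurd h2 hh
  filter_upwards [h1] with ω hω
  exact normalTo_of_ud hb (ud_of_weyl _ hω)

end Pool.Agent.K9h10.AL
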