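import Mathlib
import Pool.Agent.TH842.A3.Uni
import Pool.Agent.K9h10.SM.Dig

set_option autoImplicit false

/-!
# Places where the multiples of an algebraic number are far from the integers
-/

namespace Pool.Agent.K9h10.AL

open Finset Filter Topology
open Pool.Agent.K9h10.SM (nd)

/-- the digits -/
noncomputable def dg (b : ℕ) (x : ℝ) : ℕ → ℤ
  | 0 => ⌊x⌋
  | k + 1 => ⌊x * (b : ℝ) ^ (k + 1)⌋ - b * ⌊x * (b : ℝ) ^ k⌋

lemma dg_succ_bounds {b : ℕ} (x : ℝ) (k : ℕ) : 0 ≤ dg b x (k + 1) ∧ dg b x (k + 1) ≤ b := by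
  unfold dg
  have h1 := Int.floor_le (x * (b : ℝ) ^ (k + 1))
  have h2 := Int.lt_floor_add_one (x * (b : ℝ) ^ (k + 1))
  have h3 := Int.floor_le (x * (b : ℝ) ^ k)
  have h4 := Int.lt_floor_add_one (x * (b : ℝ) ^ k)
  have e : x * (b : ℝ) ^ (k + 1) = b * (x * (b : ℝ) ^ k) := by ring
  have hb : (0 : ℝ) ≤ b := Nat.cast_nonneg b
  constructor
  · rw [sub_nonneg]
    apply Int.le_floor.2
    push_cast
    rw [e]
    exact mul_le_mul_of_nonneg_left h3 hb
  · have h5 : (⌊x * (b : ℝ) ^ (k + 1)⌋ : ℝ) ≤ b * ⌊x * (b : ℝ) ^ k⌋ + b := by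
      rw [e] at h1 ⊢
      nlinarith
    have h6 : ⌊x * (b : ℝ) ^ (k + 1)⌋ ≤ b * ⌊x * (b : ℝ) ^ k⌋ + b := by exact_mod_cast h5
    linarith

lemma sum_dg {b : ℕ} (hb : 2 ≤ b) (x : ℝ) (n : ℕ) :
    ∑ k ∈ range (n + 1), (dg b x k : ℝ) / (b : ℝ) ^ k = (⌊x * (b : ℝ) ^ n⌋ : ℝ) / (b : ℝ) ^ n := by
  have hb0 : (b : ℝ) ≠ 0 := by
    have : (0 : ℝ) < b := by exact_mod_cast (by omega : 0 < b)
    exact this.ne'
  induction n with
  | zero => simp [dg]
  | succ n ih =>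
    rw [sum_range_succ, ih]
    unfold dg
    push_cast
    field_simp
    ring

lemma hasSum_dg {b : ℕ} (hb : 2 ≤ b) (x : ℝ) :
    HasSum (fun k : ℕ => (dg b x k : ℝ) / (b : ℝ) ^ k) x := by
  have hb1 : (1 : ℝ) < b := by exact_mod_cast (by omega : 1 < b)
  have hb0 : (0 : ℝ) < b := by linarith
  have hbd : ∀ k, |(dg b x k : ℝ)| ≤ max (b : ℝ) |(⌊x⌋ : ℝ)| := by
    intro k
    rcases k with _ | k
    · exact le_max_right _ _
    · obtain ⟨h1, h2⟩ := dg_succ_bounds (b := b) x k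
      refine le_trans ?_ (le_max_left _ _)
      rw [abs_of_nonneg (by exact_mod_cast h1)]
      exact_mod_cast h2
  have hs : Summable fun k : ℕ => (dg b x k : ℝ) / (b : ℝ) ^ k := by
    have hg : Summable fun k : ℕ => max (b : ℝ) |(⌊x⌋ : ℝ)| * (1 / (b : ℝ)) ^ k :=
      (summable_geometric_of_lt_one (by positivity) (by
        rw [div_lt_one hb0]; exact hb1)).mul_left _
    refine Summable.of_norm_bounded hg fun k => ?_
    rw [Real.norm_eq_abs, abs_div, abs_of_pos (pow_pos hb0 k), one_div, inv_pow, div_eq_mul_inv]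
    exact mul_le_mul_of_nonneg_right (hbd k) (by positivity)
  rw [hs.hasSum_iff_tendsto_nat]
  rw [← tendsto_add_atTop_iff_nat 1]
  simp_rw [sum_dg hb]
  have h1 : Tendsto (fun n : ℕ => x - 1 / (b : ℝ) ^ n) atTop (𝓝 (x - 0)) := by
    refine tendsto_const_nhds.sub ?_
    exact tendsto_const_nhds.div_atTop (tendsto_pow_atTop_atTop_of_one_lt hb1)
  rw [sub_zero] at h1
  refine tendsto_of_tendsto_of_tendsto_of_le_of_le h1 tendsto_const_nhds (fun n => ?_) (fun n => ?_)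
  · have hp : (0 : ℝ) < (b : ℝ) ^ n := pow_pos hb0 n
    have h2 := Int.lt_floor_add_one (x * (b : ℝ) ^ n)
    simp only
    rw [le_div_iff₀ hp, sub_mul, one_div, inv_mul_cancel₀ hp.ne']
    linarith
  · have hp : (0 : ℝ) < (b : ℝ) ^ n := pow_pos hb0 n
    have h2 := Int.floor_le (x * (b : ℝ) ^ n)
    simp only
    rw [div_le_iff₀ hp]
    exact h2

/-- a change of the digits gives a place far from the integers -/
lemma nd_of_change {b : ℕ} (hb : 2 ≤ b) (x : ℝ) (k : ℕ) (h : dg b x (k + 1) ≠ dg b x (k + 2)) :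
    1 / (b : ℝ) ^ 2 ≤ nd ((b : ℝ) ^ k * x) := by
  have hb0 : (0 : ℝ) < b := by exact_mod_cast (by omega : 0 < b)
  have hbz : (2 : ℤ) ≤ b := by exact_mod_cast hb
  set y : ℝ := (b : ℝ) ^ k * x with hy
  by_contra hcon
  push Not at hcon
  set m : ℤ := round y with hm
  have h1 : |y - m| < 1 / (b : ℝ) ^ 2 := hcon
  rw [abs_lt] at h1
  have hb2 : (0 : ℝ) < (b : ℝ) ^ 2 := by positivity
  have e1 : x * (b : ℝ) ^ (k + 1) = b * y := by rw [hy]; ring
  have e2 : x * (b : ℝ) ^ (k + 2) = (b : ℝ) ^ 2 * y := by rw [hy]; ring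
  have e0 : x * (b : ℝ) ^ k = y := by rw [hy]; ring
  have h2 : -1 < (b : ℝ) ^ 2 * (y - m) := by
    have := mul_lt_mul_of_pos_left h1.1 hb2
    rw [mul_neg, mul_one_div_cancel hb2.ne'] at this
    exact this
  have h3 : (b : ℝ) ^ 2 * (y - m) < 1 := by
    have := mul_lt_mul_of_pos_left h1.2 hb2
    rw [mul_one_div_cancel hb2.ne'] at this
    exact this
  have hb1R : (1 : ℝ) ≤ b := by exact_mod_cast (by omega : 1 ≤ b)
  rcases le_or_gt 0 (y - m) with h0 | h0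
  · -- the digits vanish
    have f0 : ⌊x * (b : ℝ) ^ k⌋ = m := by
      rw [e0, Int.floor_eq_iff]
      constructor <;> nlinarith
    have f1 : ⌊x * (b : ℝ) ^ (k + 1)⌋ = b * m := by
      rw [e1, Int.floor_eq_iff]
      push_cast
      constructor <;> nlinarith
    have f2 : ⌊x * (b : ℝ) ^ (k + 2)⌋ = (b : ℤ) ^ 2 * m := by
      rw [e2, Int.floor_eq_iff]
      push_cast
      constructor <;> nlinarith
    apply h
    change ⌊x * (b : ℝ) ^ (k + 1)⌋ - b * ⌊x * (b : ℝ) ^ k⌋ =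
      ⌊x * (b : ℝ) ^ (k + 2)⌋ - b * ⌊x * (b : ℝ) ^ (k + 1)⌋
    rw [f0, f1, f2]
    ring
  · have f0 : ⌊x * (b : ℝ) ^ k⌋ = m - 1 := by
      rw [e0, Int.floor_eq_iff]
      push_cast
      constructor <;> nlinarith
    have f1 : ⌊x * (b : ℝ) ^ (k + 1)⌋ = b * m - 1 := by
      rw [e1, Int.floor_eq_iff]
      push_cast
      constructor <;> nlinarith
    have f2 : ⌊x * (b : ℝ) ^ (k + 2)⌋ = (b : ℤ) ^ 2 * m - 1 := by
      rw [e2, Int.floor_eq_iff]
      push_cast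
      constructor <;> nlinarith
    apply h
    change ⌊x * (b : ℝ) ^ (k + 1)⌋ - b * ⌊x * (b : ℝ) ^ k⌋ =
      ⌊x * (b : ℝ) ^ (k + 2)⌋ - b * ⌊x * (b : ℝ) ^ (k + 1)⌋
    rw [f0, f1, f2]
    ring

/-- **Good places.** -/
theorem good_places (β : ℝ) (halg : IsAlgebraic ℚ β) (hirr : Irrational β) (b : ℕ) (hb : 2 ≤ b) :
    ∃ c : ℝ, 0 < c ∧ ∃ N₀ : ℕ, ∀ N : ℕ, N₀ ≤ N →
      c * (Real.log N) ^ 3 / (Real.log (Real.log N)) ^ 5 ≤
        (((range N).filter fun i => 1 / (b : ℝ) ^ 2 ≤ nd ((b : ℝ) ^ i * β)).card : ℝ) := by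
  have hbd : ∀ k, |dg b β k| ≤ max (b : ℤ) |⌊β⌋| := by
    intro k
    rcases k with _ | k
    · exact le_max_right _ _
    · obtain ⟨h1, h2⟩ := dg_succ_bounds (b := b) β k
      refine le_trans ?_ (le_max_left _ _)
      rw [abs_of_nonneg h1]
      exact h2
  obtain ⟨c, hc, N₀, h⟩ := Pool.Agent.TH842.A3.Uni.relations_one β halg hirr b hb (dg b β) _ hbd
    (hasSum_dg hb β) 1 (fun j => if j = 0 then 1 else -1) ⟨0, by omega, by simp⟩ 0
  refine ⟨c, hc, N₀, fun N hN => (h N hN).trans ?_⟩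
  refine Nat.cast_le.2 (card_le_card_of_injOn (fun k => k - 1) ?_ ?_)
  · intro k hk
    simp only [coe_filter, mem_Icc, Set.mem_ofPred_eq] at hk
    obtain ⟨⟨hk1, hk2⟩, hk3⟩ := hk
    simp only [coe_filter, mem_range, Set.mem_ofPred_eq]
    refine ⟨by omega, ?_⟩
    obtain ⟨l, rfl⟩ : ∃ l, k = l + 1 := ⟨k - 1, by omega⟩
    rw [Nat.add_sub_cancel]
    refine nd_of_change hb β l fun h0 => hk3 ?_
    rw [sum_range_succ, sum_range_one]
    simp only [if_true, one_mul, add_zero]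
    rw [if_neg one_ne_zero, show l + 1 + 1 = l + 2 by ring, h0]
    ring
  · intro k hk l hl hkl
    simp only [coe_filter, mem_Icc, Set.mem_ofPred_eq] at hk hl
    simp only at hkl
    omega

end Pool.Agent.K9h10.AL
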