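import Mathlib
import Pool.Agent.K9h10.AL.Gen
import Pool.Agent.K9h10.AL.Good

set_option autoImplicit false

/-!
# Algebraic numbers
-/

namespace Pool.Agent.K9h10.AL

open MeasureTheory ProbabilityTheory Finset Filter Topology
open Pool.Agent.K9h10.SM

/-- the weight -/
noncomputable def gw (i : ℕ) : ℝ := Real.log i ^ 3 / Real.log (Real.log i) ^ 5

lemma mono_aux {s t : ℝ} (hs : 0 < s) (hs2 : 2 ≤ Real.log s) (hst : s ≤ t) :
    s ^ 3 / Real.log s ^ 5 ≤ t ^ 3 / Real.log t ^ 5 := by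
  have ht : 0 < t := by linarith
  have hlst : Real.log s ≤ Real.log t := Real.log_le_log hs hst
  set L := Real.log s with hL
  set l := Real.log t - L with hl
  have hl0 : 0 ≤ l := by linarith
  have ht' : Real.log t = L + l := by ring
  have hL0 : 0 < L := by linarith
  have e1 : s ^ 3 * Real.exp l ^ 3 = t ^ 3 := by
    have : t = s * Real.exp l := by
      rw [hl, Real.exp_sub, Real.exp_log ht, hL, Real.exp_log hs]
      field_simp
    rw [this]
    ring
  rw [ht', div_le_div_iff₀ (by positivity) (by positivity), ← e1]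
  have h1 : (L + l) ^ 5 ≤ L ^ 5 * Real.exp l ^ 3 := by
    have h2 : L + l ≤ L * Real.exp (l / 2) := by
      have h3 := Real.add_one_le_exp (l / 2)
      have h4 : L * (l / 2 + 1) ≤ L * Real.exp (l / 2) := mul_le_mul_of_nonneg_left h3 hL0.le
      nlinarith
    calc (L + l) ^ 5 ≤ (L * Real.exp (l / 2)) ^ 5 := pow_le_pow_left₀ (by positivity) h2 5
      _ = L ^ 5 * Real.exp (5 * (l / 2)) := by
          rw [mul_pow, ← Real.exp_nat_mul]
          norm_num
      _ ≤ L ^ 5 * Real.exp (3 * l) := by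
          refine mul_le_mul_of_nonneg_left (Real.exp_le_exp.2 (by linarith)) (by positivity)
      _ = L ^ 5 * Real.exp l ^ 3 := by
          rw [← Real.exp_nat_mul]
          norm_num
  calc s ^ 3 * (L + l) ^ 5 ≤ s ^ 3 * (L ^ 5 * Real.exp l ^ 3) :=
        mul_le_mul_of_nonneg_left h1 (by positivity)
    _ = s ^ 3 * Real.exp l ^ 3 * L ^ 5 := by ring

lemma loglog_tendsto : Tendsto (fun i : ℕ => Real.log (Real.log i)) atTop atTop :=
  Real.tendsto_log_atTop.comp (Real.tendsto_log_atTop.comp tendsto_natCast_atTop_atTop)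

lemma gw_mono {i j : ℕ} (hi : 2 ≤ i) (h2 : 2 ≤ Real.log (Real.log i)) (hij : i ≤ j) : gw i ≤ gw j := by
  have hiR : (2 : ℝ) ≤ i := by exact_mod_cast hi
  have h3 : Real.log i ≤ Real.log j := Real.log_le_log (by linarith) (by exact_mod_cast hij)
  exact mono_aux (Real.log_pos (by linarith)) h2 h3

lemma gw_pos : ∀ᶠ i in atTop, 0 < gw i := by
  filter_upwards [loglog_tendsto.eventually_gt_atTop 0, eventually_ge_atTop 2] with i h1 h2
  have hlog : 0 < Real.log i := Real.log_pos (by exact_mod_cast (by omega : 1 < i))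
  unfold gw
  positivity

lemma gw_four : ∃ C : ℝ, 0 < C ∧ ∀ᶠ k : ℕ in atTop, ∀ i : ℕ, k ≤ i → i ≤ k ^ 4 → gw i ≤ C * gw k := by
  refine ⟨64, by norm_num, ?_⟩
  filter_upwards [loglog_tendsto.eventually_ge_atTop 2, eventually_ge_atTop 2] with k h1 h2 i h3 h4
  have hkR : (2 : ℝ) ≤ k := by exact_mod_cast h2
  have hlk : 0 < Real.log k := Real.log_pos (by linarith)
  have hiR : (2 : ℝ) ≤ i := by exact_mod_cast (by omega : 2 ≤ i)
  have h5 : Real.log k ≤ Real.log i := Real.log_le_log (by linarith) (by exact_mod_cast h3)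
  have h6 : 2 ≤ Real.log (Real.log i) := h1.trans (Real.log_le_log hlk h5)
  refine (gw_mono (by omega) h6 h4).trans ?_
  unfold gw
  push_cast
  rw [Real.log_pow]
  push_cast
  have h7 : Real.log (Real.log k) ≤ Real.log (4 * Real.log k) :=
    Real.log_le_log hlk (by linarith)
  have h8 : (0 : ℝ) < Real.log (Real.log k) ^ 5 := by positivity
  rw [← mul_div_assoc, show (4 * Real.log (k : ℝ)) ^ 3 = 64 * Real.log k ^ 3 by ring]
  exact div_le_div_of_nonneg_left (by positivity) h8 (pow_le_pow_left₀ (by linarith) h7 5)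

/-- **Normality of the multiples of algebraic numbers.** -/
theorem normal_alg {Ω : Type*} [MeasurableSpace Ω] {P : Measure Ω} [IsProbabilityMeasure P]
    {b : ℕ} (hb : 2 ≤ b) {α : ℝ} (hα : IsAlgebraic ℚ α) (hirr : Irrational α) (y0 : ℝ)
    {X : ℕ → Ω → ℤ} (hX : ∀ i, Measurable (X i)) (hI : iIndepFun X P) (K : ℕ)
    (hK : ∀ i ω, |X i ω| ≤ (K : ℤ))
    (hv : ∀ a : ℕ → ℤ, Tendsto (fun i : ℕ => P.real {ω | X i ω ≠ a i} *
      (Real.log i ^ 3 / Real.log (Real.log i) ^ 5)) atTop atTop) :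
    ∀ᵐ ω ∂P, NormalTo b (y0 + α * ∑' i, (X i ω : ℝ) / (b : ℝ) ^ i) := by
  refine normal_gen hb α gw gw_pos gw_four (fun T hT => ?_) y0 hX hI K hK hv
  have halg : IsAlgebraic ℚ ((T : ℝ) * α) := by
    have h1 : IsAlgebraic ℚ (T : ℝ) := by
      have := isAlgebraic_algebraMap (R := ℚ) (A := ℝ) (T : ℚ)
      simpa using this
    exact h1.mul hα
  obtain ⟨c, hc, N₀, h⟩ := good_places ((T : ℝ) * α) halg (hirr.intCast_mul hT) b hb
  refine ⟨c, 1 / (b : ℝ) ^ 2, hc, by
    have : (0 : ℝ) < b := by exact_mod_cast (by omega : 0 < b)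
    positivity, ?_⟩
  filter_upwards [eventually_ge_atTop N₀] with k hk
  have h1 := h k hk
  unfold gw
  rw [← mul_div_assoc]
  exact h1

end Pool.Agent.K9h10.AL
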