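import Mathlib
import Pool.Agent.K9h10.PD.Arr
import Pool.Agent.K9h10.PD.Est
import Pool.Agent.K9h10.AL.Alg

/-! # Multiples of algebraic numbers by integers with prescribed digits -/

set_option autoImplicit false

open Finset Filter Topology

namespace Pool.Agent.K9h10.AL

open Pool.Agent.H534R3.UDist (ee norm_ee)
open Pool.Agent.K9h10.SM (nd nd_nonneg nd_int_mul ee_add)
open Pool.Agent.K9h10.PD

/-- same parity -/
lemma parity' (S : Finset ℕ) : ∃ S' ⊆ S, (∀ i ∈ S', ∀ l ∈ S', i % 2 = l % 2) ∧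
    (S.card : ℝ) / 2 ≤ S'.card := by
  have h := Finset.card_filter_add_card_filter_not (s := S) (fun i => i % 2 = 0)
  rcases le_total (S.filter fun i => i % 2 = 0).card (S.filter fun i => ¬ i % 2 = 0).card with h1 | h1
  · refine ⟨S.filter fun i => ¬ i % 2 = 0, filter_subset _ _, fun i hi l hl => ?_, ?_⟩
    · rw [mem_filter] at hi hl
      omega
    · have : (S.card : ℝ) ≤ 2 * ((S.filter fun i => ¬ i % 2 = 0).card : ℝ) := by
        exact_mod_cast (by omega : S.card ≤ 2 * (S.filter fun i => ¬ i % 2 = 0).card)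
      linarith
  · refine ⟨S.filter fun i => i % 2 = 0, filter_subset _ _, fun i hi l hl => ?_, ?_⟩
    · rw [mem_filter] at hi hl
      omega
    · have : (S.card : ℝ) ≤ 2 * ((S.filter fun i => i % 2 = 0).card : ℝ) := by
        exact_mod_cast (by omega : S.card ≤ 2 * (S.filter fun i => i % 2 = 0).card)
      linarith

/-- the exponential sums -/
lemma bound_places' {b : ℕ} (hb : 2 ≤ b) {z ρ : ℝ} (hρ : 0 < ρ) {h N L : ℕ} (hN8 : 8 ≤ N)
    (hLN : L + 1 ≤ N) (S0 : Finset ℕ) (hS0 : S0 ⊆ range L)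
    (hgood : ∀ i ∈ S0, ρ ≤ nd (((((b - 1) * (b - 1).factorial) * h : ℕ) : ℝ) * ((b : ℝ) ^ i * z)))
    (κ : Fin b → ℕ) (hκ : ∑ c, κ c = N) (R : ℝ) (hR0 : 0 ≤ R) (hR : ∀ c, R ≤ (N : ℝ) - κ c) (M : ℝ)
    (hM : 0 < M) (hMR : M * N ≤ S0.card / 2 * R) :
    ‖∑ a ∈ Wd N κ, ee (h * z * vl a)‖ ≤
      (Real.exp (-((ρ / ((b - 1).factorial : ℝ)) ^ 2 * M)) + 36 / M) * (Wd N κ).card := by
  set F : ℕ := (b - 1).factorial with hF
  have hF0 : 0 < F := Nat.factorial_pos _
  have hFR : (0 : ℝ) < F := by exact_mod_cast hF0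
  have hb0 : (0 : ℝ) < b := by exact_mod_cast (by omega : 0 < b)
  obtain ⟨S, hSS, hpar, hScard⟩ := parity' S0
  have hSL : ∀ i ∈ S, i < L := fun i hi => mem_range.1 (hS0 (hSS hi))
  set u : ℕ → Fin N := fun i => ⟨min i (N - 1), by omega⟩ with hu
  set v : ℕ → Fin N := fun i => ⟨min (i + 1) (N - 1), by omega⟩ with hv
  have hu1 : ∀ i ∈ S, ((u i : Fin N) : ℕ) = i := fun i hi => by
    have := hSL i hi
    simp only [hu]
    omega
  have hv1 : ∀ i ∈ S, ((v i : Fin N) : ℕ) = i + 1 := fun i hi => by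
    have := hSL i hi
    simp only [hv]
    omega
  refine weyl_bound (κ := κ) S u v (h * z) (ρ / (F : ℝ)) (by positivity)
    (fun i hi h0 => ?_) (fun i hi l hl hil => ?_) (fun i hi a ha => ?_) hN8 ?_ hκ R hR M hM ?_
  · have := congrArg Fin.val h0
    rw [hu1 i hi, hv1 i hi] at this
    omega
  · have h1 := hpar i hi l hl
    have h2 : ∀ {p q : Fin N}, (p : ℕ) ≠ q → p ≠ q := fun h' h'' => h' (congrArg Fin.val h'')
    refine ⟨h2 ?_, h2 ?_, h2 ?_, h2 ?_⟩
    · rw [hu1 i hi, hu1 l hl]; exact hil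
    · rw [hu1 i hi, hv1 l hl]; omega
    · rw [hv1 i hi, hu1 l hl]; omega
    · rw [hv1 i hi, hv1 l hl]; omega
  · -- the good places
    set x : ℤ := ((a (v i) : ℕ) : ℤ) - ((a (u i) : ℕ) : ℤ) with hx
    have hx0 : x ≠ 0 := by
      intro h0
      apply ha
      apply Fin.ext
      omega
    have hxb : x.natAbs ≤ b - 1 := by
      have h1 := (a (v i)).2
      have h2 := (a (u i)).2
      omega
    have hdvd : x ∣ (F : ℤ) := by
      rw [← Int.natAbs_dvd]
      have h5 : 0 < x.natAbs := by omega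
      exact_mod_cast Nat.dvd_factorial h5 hxb
    obtain ⟨s, hs⟩ := hdvd
    have hsR : (F : ℝ) = x * s := by exact_mod_cast hs
    have hs1 : |((-s : ℤ) : ℝ)| ≤ F := by
      have h5 : |(F : ℝ)| = |(x : ℝ)| * |(s : ℝ)| := by rw [hsR, abs_mul]
      rw [abs_of_pos hFR] at h5
      have h6 : (1 : ℝ) ≤ |(x : ℝ)| := by exact_mod_cast Int.one_le_abs hx0
      push_cast
      rw [abs_neg]
      nlinarith [abs_nonneg (s : ℝ)]
    have hdv : dv (u i) (v i) a = -((x : ℝ) * (((b : ℝ) - 1) * (b : ℝ) ^ i)) := by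
      unfold dv
      rw [hx, hu1 i hi, hv1 i hi]
      push_cast
      ring
    have h4 := nd_int_mul (-s) (h * z * dv (u i) (v i) a)
    have e4 : ((-s : ℤ) : ℝ) * (h * z * dv (u i) (v i) a) =
        ((((b - 1) * F) * h : ℕ) : ℝ) * ((b : ℝ) ^ i * z) := by
      rw [hdv]
      push_cast
      rw [Nat.cast_sub (by omega : 1 ≤ b), hsR]
      push_cast
      ring
    rw [e4] at h4
    have h7 := (hgood i (hSS hi)).trans h4
    have h8 : ρ ≤ F * nd (h * z * dv (u i) (v i) a) :=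
      h7.trans (mul_le_mul_of_nonneg_right hs1 (nd_nonneg _))
    rw [div_le_iff₀ hFR]
    linarith
  · have h1 : S.card ≤ L := by
      calc S.card ≤ (range L).card := card_le_card fun i hi => mem_range.2 (hSL i hi)
        _ = L := card_range L
    exact_mod_cast (by omega : S.card ≤ N)
  · exact hMR.trans (mul_le_mul_of_nonneg_right hScard hR0)


/-- the exponential sums for one frequency, general form -/
lemma bound_gen {b : ℕ} (hb : 2 ≤ b) (α : ℝ) (g : ℕ → ℝ) (hg0 : ∀ᶠ i in atTop, 0 < g i)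
    (hg1 : ∀ᶠ i in atTop, g (i + 1) ≤ 2 * g i)
    (hgood : ∀ T : ℤ, T ≠ 0 → ∃ c ρ : ℝ, 0 < c ∧ 0 < ρ ∧ ∀ᶠ k : ℕ in atTop,
      c * g k ≤ (((range k).filter fun j => ρ ≤ nd ((b : ℝ) ^ j * (T * α))).card : ℝ))
    {h : ℕ} (hh : h ≠ 0) : ∃ C δ : ℝ, 0 < C ∧ 0 < δ ∧ ∃ N₀ : ℕ, ∀ N : ℕ, N₀ ≤ N →
      ∀ κ : Fin b → ℕ, ∑ c, κ c = N → ∀ K : ℝ, 0 < K → (∀ c, K * N ≤ ((N : ℝ) - κ c) * g N) →
        ‖∑ a ∈ Wd N κ, ee (h * (α * vl a))‖ ≤
          (Real.exp (-(δ ^ 2 * (C * K))) + 36 / (C * K)) * (Wd N κ).card := by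
  set F : ℕ := (b - 1).factorial with hF
  have hF0 : 0 < F := Nat.factorial_pos _
  have hFR : (0 : ℝ) < F := by exact_mod_cast hF0
  set T : ℕ := ((b - 1) * F) * h with hT
  have hT0 : (T : ℤ) ≠ 0 := by
    have : 0 < T := Nat.mul_pos (Nat.mul_pos (by omega) hF0) (Nat.pos_of_ne_zero hh)
    omega
  obtain ⟨c, ρ, hc, hρ, hgd⟩ := hgood T hT0
  obtain ⟨N₁, hN₁⟩ := eventually_atTop.1 ((hgd.and hg0).and hg1)
  refine ⟨c / 4, ρ / F, by positivity, by positivity, N₁ + 9, fun N hN κ hκ K hK hcond => ?_⟩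
  obtain ⟨L, rfl⟩ : ∃ L, N = L + 1 := ⟨N - 1, by omega⟩
  obtain ⟨⟨h1, h2⟩, h3⟩ := hN₁ L (by omega)
  have h4 : 0 < g (L + 1) := (hN₁ (L + 1) (by omega)).1.2
  set S0 : Finset ℕ := (range L).filter fun j => ρ ≤ nd ((b : ℝ) ^ j * (((T : ℤ) : ℝ) * α)) with hS0
  have hN0 : (0 : ℝ) < ((L + 1 : ℕ) : ℝ) := by positivity
  have key := bound_places' hb hρ (z := α) (h := h) (N := L + 1) (L := L) (by omega) le_rfl S0
    (filter_subset _ _) (fun i hi => by
      rw [hS0, mem_filter] at hi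
      have e : ((b : ℝ) ^ i * (((T : ℤ) : ℝ) * α)) =
          ((((b - 1) * (b - 1).factorial) * h : ℕ) : ℝ) * ((b : ℝ) ^ i * α) := by
        rw [hT, hF]
        push_cast
        ring
      rw [e] at hi
      exact hi.2) κ hκ (K * (L + 1 : ℕ) / g (L + 1)) (by positivity) (fun c' => by
        rw [div_le_iff₀ h4]
        exact hcond c') (c / 4 * K) (by positivity) (by
        rw [mul_div_assoc', le_div_iff₀ h4]
        have h5 : c * g (L + 1) / 4 ≤ (S0.card : ℝ) / 2 := by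
          have : c * g (L + 1) ≤ 2 * (c * g L) := by
            rw [← mul_assoc, mul_comm 2 c, mul_assoc]
            exact mul_le_mul_of_nonneg_left h3 hc.le
          linarith
        calc c / 4 * K * ((L + 1 : ℕ) : ℝ) * g (L + 1) = c * g (L + 1) / 4 * (K * ((L + 1 : ℕ) : ℝ)) := by
              ring
          _ ≤ (S0.card : ℝ) / 2 * (K * ((L + 1 : ℕ) : ℝ)) :=
              mul_le_mul_of_nonneg_right h5 (by positivity))
  have e : ∀ a : Fin (L + 1) → Fin b, (h : ℝ) * (α * vl a) = h * α * vl a := fun a => by ring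
  simp_rw [e]
  exact key

/-- **Equidistribution, general form.** -/
theorem main_gen {b : ℕ} (hb : 2 ≤ b) (α : ℝ) (g : ℕ → ℝ) (hg0 : ∀ᶠ i in atTop, 0 < g i)
    (hg1 : ∀ᶠ i in atTop, g (i + 1) ≤ 2 * g i)
    (hgb : ∀ B : ℕ, ∃ G : ℝ, ∀ i ≤ B, g i ≤ G)
    (hgood : ∀ T : ℤ, T ≠ 0 → ∃ c ρ : ℝ, 0 < c ∧ 0 < ρ ∧ ∀ᶠ k : ℕ in atTop,
      c * g k ≤ (((range k).filter fun j => ρ ≤ nd ((b : ℝ) ^ j * (T * α))).card : ℝ))
    (s t : ℝ) (hs : 0 ≤ s) (hst : s ≤ t) (ht : t ≤ 1) (ε : ℝ) (hε : 0 < ε) :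
    ∃ K : ℝ, ∀ y : ℝ, ∀ N : ℕ, 2 ≤ N → ∀ κ : Fin b → ℕ, ∑ c, κ c = N →
      (∀ c, K * N ≤ ((N : ℝ) - κ c) * g N) →
      |((((Wd N κ).filter fun a => s ≤ Int.fract (y + α * vl a) ∧
        Int.fract (y + α * vl a) < t).card : ℕ) : ℝ)
        - (t - s) * (Wd N κ).card| ≤ ε * (Wd N κ).card := by
  by_contra hcon
  push Not at hcon
  choose y N hN2 κ hκ hcond hbad using fun n : ℕ => hcon (n : ℝ)
  have hNpos : ∀ n, (0 : ℝ) < N n := fun n => by exact_mod_cast (by have := hN2 n; omega : 0 < N n)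
  have hκN : ∀ n c, κ n c ≤ N n := fun n c => by
    rw [← hκ n]
    exact single_le_sum (fun _ _ => Nat.zero_le _) (mem_univ c)
  have hgN : ∀ n : ℕ, (n : ℝ) ≤ max 0 (g (N n)) := by
    intro n
    have hc := hcond n ⟨0, by omega⟩
    have h2 : (0 : ℝ) ≤ κ n ⟨0, by omega⟩ := Nat.cast_nonneg _
    have h5 : (κ n ⟨0, by omega⟩ : ℝ) ≤ N n := by exact_mod_cast hκN n _
    have h3 : (n : ℝ) * N n ≤ N n * max 0 (g (N n)) := by
      refine hc.trans ?_
      calc ((N n : ℝ) - κ n ⟨0, by omega⟩) * g (N n)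
          ≤ ((N n : ℝ) - κ n ⟨0, by omega⟩) * max 0 (g (N n)) :=
            mul_le_mul_of_nonneg_left (le_max_right _ _) (by linarith)
        _ ≤ N n * max 0 (g (N n)) := mul_le_mul_of_nonneg_right (by linarith) (le_max_left _ _)
    have h4 := hNpos n
    nlinarith
  have hNtop : Tendsto N atTop atTop := by
    rw [tendsto_atTop]
    intro B
    obtain ⟨G, hG⟩ := hgb B
    filter_upwards [eventually_gt_atTop ⌈max 0 G⌉₊] with n hn
    by_contra hlt
    push Not at hlt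
    have h1 := hgN n
    have h2 := hG (N n) hlt.le
    have h3 : max 0 (g (N n)) ≤ max 0 G := max_le_max le_rfl h2
    have h4 : max 0 G < n := Nat.lt_of_ceil_lt hn
    linarith
  have hcardpos : ∀ n, 0 < (Wd (N n) (κ n)).card := by
    intro n
    by_contra h0
    have h0' : (Wd (N n) (κ n)).card = 0 := by omega
    have h1 := hbad n
    rw [card_eq_zero] at h0'
    rw [h0'] at h1
    simp at h1
  have hW : WeylF atTop (fun n => Wd (N n) (κ n)) (fun n a => y n + α * vl a) := by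
    intro h hh
    obtain ⟨C, δ, hC, hδ, N₀, hbd⟩ := bound_gen hb α g hg0 hg1 hgood (h := h) (by omega)
    have hlim : Tendsto (fun n : ℕ => Real.exp (-(δ ^ 2 * (C * n))) + 36 / (C * n)) atTop (𝓝 0) := by
      have h1 : Tendsto (fun n : ℕ => C * (n : ℝ)) atTop atTop :=
        tendsto_natCast_atTop_atTop.const_mul_atTop hC
      have h2 : Tendsto (fun n : ℕ => Real.exp (-(δ ^ 2 * (C * n)))) atTop (𝓝 0) :=
        Real.tendsto_exp_neg_atTop_nhds_zero.comp (h1.const_mul_atTop (by positivity))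
      have h3 : Tendsto (fun n : ℕ => 36 / (C * (n : ℝ))) atTop (𝓝 0) :=
        tendsto_const_nhds.div_atTop h1
      simpa using h2.add h3
    refine squeeze_zero' (Eventually.of_forall fun n => by positivity) ?_ hlim
    filter_upwards [hNtop.eventually_ge_atTop N₀, eventually_gt_atTop 0] with n h1 h2
    have h3 := hbd (N n) h1 (κ n) (hκ n) n (by exact_mod_cast h2) (hcond n)
    have h4 : (0 : ℝ) < (Wd (N n) (κ n)).card := by exact_mod_cast hcardpos n
    rw [div_le_iff₀ h4]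
    have h5 : ‖∑ a ∈ Wd (N n) (κ n), ee (h * (y n + α * vl a))‖ =
        ‖∑ a ∈ Wd (N n) (κ n), ee (h * (α * vl a))‖ := by
      have h6 : ∀ a ∈ Wd (N n) (κ n), ee (h * (y n + α * vl a)) =
          ee (h * y n) * ee (h * (α * vl a)) := by
        intro a _
        rw [← ee_add]
        congr 1
        ring
      rw [sum_congr rfl h6, ← mul_sum, norm_mul, norm_ee, one_mul]
    rw [h5]
    exact h3
  have hfin := ud_of_weyl (L := atTop) (fun n => Wd (N n) (κ n)) (fun n a => y n + α * vl a)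
    (Eventually.of_forall hcardpos) hW s t hs hst ht ε hε
  obtain ⟨n, hn⟩ := hfin.exists
  have h1 := hbad n
  unfold cntF at hn
  linarith

/-- **Equidistribution for algebraic numbers.** -/
theorem main_alg {b : ℕ} (hb : 2 ≤ b) {α : ℝ} (hα : IsAlgebraic ℚ α) (hirr : Irrational α)
    (s t : ℝ) (hs : 0 ≤ s) (hst : s ≤ t) (ht : t ≤ 1) (ε : ℝ) (hε : 0 < ε) :
    ∃ K : ℝ, ∀ y : ℝ, ∀ N : ℕ, 2 ≤ N → ∀ κ : Fin b → ℕ, ∑ c, κ c = N →
      (∀ c, K * N ≤ ((N : ℝ) - κ c) * gw N) →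
      |((((Wd N κ).filter fun a => s ≤ Int.fract (y + α * vl a) ∧
        Int.fract (y + α * vl a) < t).card : ℕ) : ℝ)
        - (t - s) * (Wd N κ).card| ≤ ε * (Wd N κ).card := by
  refine main_gen hb α gw gw_pos ?_ (fun B => ?_) (fun T hT => ?_) s t hs hst ht ε hε
  · filter_upwards [loglog_tendsto.eventually_ge_atTop 2, eventually_ge_atTop 8] with k h1 h2
    have hkR : (8 : ℝ) ≤ k := by exact_mod_cast h2
    have hlk : 1 < Real.log k := by
      have h1 : Real.exp 1 < k := by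
        have := Real.exp_one_lt_d9
        linarith
      exact (Real.lt_log_iff_exp_lt (by linarith)).2 h1
    have h3 : Real.log ((k + 1 : ℕ) : ℝ) ≤ Real.log k + 1 / 8 := by
      have e : ((k + 1 : ℕ) : ℝ) = k * (1 + 1 / k) := by
        push_cast
        field_simp
      rw [e, Real.log_mul (by positivity) (by positivity)]
      have h4 := Real.log_le_sub_one_of_pos (show (0 : ℝ) < 1 + 1 / k by positivity)
      have h5 : 1 / (k : ℝ) ≤ 1 / 8 := one_div_le_one_div_of_le (by norm_num) hkR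
      linarith
    have h4 : Real.log k ≤ Real.log ((k + 1 : ℕ) : ℝ) := Real.log_le_log (by linarith) (by
      push_cast; linarith)
    have h5 : Real.log (Real.log k) ≤ Real.log (Real.log ((k + 1 : ℕ) : ℝ)) :=
      Real.log_le_log (by linarith) h4
    unfold gw
    have h6 : Real.log ((k + 1 : ℕ) : ℝ) ^ 3 ≤ 2 * Real.log k ^ 3 := by
      have h7 : Real.log ((k + 1 : ℕ) : ℝ) ≤ 9 / 8 * Real.log k := by linarith
      calc Real.log ((k + 1 : ℕ) : ℝ) ^ 3 ≤ (9 / 8 * Real.log k) ^ 3 :=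
            pow_le_pow_left₀ (by linarith) h7 3
        _ = (9 / 8) ^ 3 * Real.log k ^ 3 := by ring
        _ ≤ 2 * Real.log k ^ 3 := by
            refine mul_le_mul_of_nonneg_right (by norm_num) (by positivity)
    have h8 : (0 : ℝ) < Real.log (Real.log k) ^ 5 := by positivity
    rw [mul_div_assoc']
    exact div_le_div₀ (by positivity) h6 h8 (pow_le_pow_left₀ (by linarith) h5 5)
  · obtain ⟨G, hG⟩ := (((range (B + 1)).image gw).bddAbove)
    exact ⟨G, fun i hi => hG (by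
      rw [mem_coe, mem_image]
      exact ⟨i, mem_range.2 (by omega), rfl⟩)⟩
  · have halg : IsAlgebraic ℚ ((T : ℝ) * α) := by
      have h1 : IsAlgebraic ℚ (T : ℝ) := by
        have := isAlgebraic_algebraMap (R := ℚ) (A := ℝ) (T : ℚ)
        simpa using this
      exact h1.mul hα
    obtain ⟨c, hc, N₀, h⟩ := good_places ((T : ℝ) * α) halg (hirr.intCast_mul hT) b hb
    refine ⟨c, 1 / (b : ℝ) ^ 2, hc, by
      have : (0 : ℝ) < b := by exact_mod_cast (by omega : 0 < b)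
      positivity, ?_⟩
    filter_upwards [eventually_ge_atTop N₀] with k hk
    have h1 := h k hk
    unfold gw
    rw [← mul_div_assoc]
    exact h1

end Pool.Agent.K9h10.AL
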